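import Mathlib

set_option autoImplicit false

/-!
# Selective high divergence is not dense hereditary

Let `I = Set ℕ × Set ℕ` and let `X` be the Cantor cube of all functions from `I` to `Bool`. Given
nonempty open sets `U n`, there are a point `y n` of `U n` and a finite set of coordinates which
guarantee membership in `U n`. Let `C` be the countable union of these finite sets. Change `y n`
at all coordinates `(A, B)` outside of `C` to the truth value of `n ∈ A`. For every subsequence `φ` let `A`
be the set of all `φ (2 k)`; some `(A, B)` is not in `C`, and at this coordinate the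
subsequence alternates. So `X` is selectively highly divergent.
The `Σ`-product `D`, the set of all functions with countable support, is dense in `X`. Every sequence
in `D` lives on countably many coordinates, so it has a subsequence which converges
to a point of `D`, and `D` is not selectively highly divergent.
-/

open Filter Topology

universe u

namespace Pool.Agent.Results.MP_f0fa00_gt.SHDNotDenseHereditary

/-- Selectively highly divergent spaces. -/
def SHD (X : Type u) [TopologicalSpace X] : Prop :=
  ∀ U : ℕ → Set X, (∀ n, IsOpen (U n)) → (∀ n, (U n).Nonempty) →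
    ∃ x : ℕ → X, (∀ n, x n ∈ U n) ∧
      ∀ (φ : ℕ → ℕ) (a : X), StrictMono φ → ¬ Tendsto (fun k => x (φ k)) atTop (𝓝 a)

/-- The index set. -/
abbrev I : Type := Set ℕ × Set ℕ

/-- A point of an open set of a Cantor cube has a finite set of coordinates that guarantees
membership. -/
theorem exists_finset {U : Set (I → Bool)} (hU : IsOpen U) {y : I → Bool} (hy : y ∈ U) :
    ∃ F : Finset I, ∀ z : I → Bool, (∀ i ∈ F, z i = y i) → z ∈ U := by
  obtain ⟨F, u, hu, hFU⟩ := isOpen_pi_iff.1 hU y hy
  exact ⟨F, fun z hz => hFU fun i hi => by
    rw [hz i hi]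
    exact (hu i hi).2⟩

open Classical in
/-- The cube is selectively highly divergent. -/
theorem shd_cube : SHD (I → Bool) := by
  intro U hU hne
  choose y hy using hne
  choose F hF using fun n => exists_finset (hU n) (hy n)
  set C : Set I := ⋃ n, (F n : Set I) with hC
  have hCc : C.Countable := Set.countable_iUnion fun n => (F n).countable_toSet
  refine ⟨fun n i => if i ∈ C then y n i else decide (n ∈ i.1), fun n => hF n _ fun i hi => ?_, ?_⟩
  · exact if_pos (Set.mem_iUnion.2 ⟨n, hi⟩)
  · intro φ a hφ hlim
    set A : Set ℕ := Set.range fun k => φ (2 * k) with hA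
    obtain ⟨B, hB⟩ : ∃ B : Set ℕ, (A, B) ∉ C := by
      by_contra hcon
      push Not at hcon
      have h1 : (Prod.mk A ⁻¹' C).Countable := hCc.preimage (Prod.mk_right_injective A)
      have h2 : Prod.mk A ⁻¹' C = Set.univ := Set.eq_univ_of_forall hcon
      rw [h2, Set.countable_univ_iff] at h1
      obtain ⟨f, hf⟩ := h1
      exact Function.cantor_injective f hf
    have h1 : Tendsto (fun k => decide (φ k ∈ A)) atTop (𝓝 (a (A, B))) := by
      have := (tendsto_pi_nhds.1 hlim) (A, B)
      simpa only [hB, if_false] using this
    have h2 : ∀ᶠ k in atTop, decide (φ k ∈ A) = a (A, B) := by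
      have := h1.eventually (mem_nhds_discrete.2 (Set.mem_singleton (a (A, B))))
      exact this
    obtain ⟨N, hN⟩ := eventually_atTop.1 h2
    have h3 := hN (2 * N) (by omega)
    have h4 := hN (2 * N + 1) (by omega)
    rw [← h4] at h3
    have h5 : φ (2 * N) ∈ A := ⟨N, rfl⟩
    have h6 : φ (2 * N + 1) ∉ A := by
      rintro ⟨k, hk⟩
      have := hφ.injective hk
      omega
    simp [h5, h6] at h3

/-- The `Σ`-product. -/
def D : Set (I → Bool) := {f | {i | f i = true}.Countable}

theorem dense_D : Dense D := by
  classical
  intro y
  rw [mem_closure_iff]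
  intro U hU hy
  obtain ⟨F, hF⟩ := exists_finset hU hy
  refine ⟨fun i => if i ∈ F then y i else false, hF _ fun i hi => if_pos hi, ?_⟩
  refine F.countable_toSet.mono fun i hi => ?_
  by_contra hcon
  have h1 : (if i ∈ F then y i else false) = true := hi
  have hcon' : i ∉ F := hcon
  rw [if_neg hcon'] at h1
  exact absurd h1 (by decide)

/-- Every sequence in the `Σ`-product has a convergent subsequence. -/
theorem exists_subseq (x : ℕ → D) :
    ∃ (φ : ℕ → ℕ) (a : D), StrictMono φ ∧ Tendsto (fun k => x (φ k)) atTop (𝓝 a) := by
  classical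
  set C : Set I := ⋃ n, {i | (x n).1 i = true} with hC
  have hCc : C.Countable := Set.countable_iUnion fun n => (x n).2
  have : Countable C := hCc.to_subtype
  obtain ⟨b, φ, hφ, hb⟩ := CompactSpace.tendsto_subseq (X := C → Bool) fun n i => (x n).1 i.1
  refine ⟨φ, ⟨fun i => if h : i ∈ C then b ⟨i, h⟩ else false, ?_⟩, hφ, ?_⟩
  · refine hCc.mono fun i hi => ?_
    by_contra hcon
    have h1 : (if h : i ∈ C then b ⟨i, h⟩ else false) = true := hi
    rw [dif_neg hcon] at h1
    exact absurd h1 (by decide)
  · rw [tendsto_subtype_rng, tendsto_pi_nhds]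
    intro i
    by_cases h : i ∈ C
    · have h1 := (tendsto_pi_nhds.1 hb) ⟨i, h⟩
      simp only [h, dif_pos]
      exact h1
    · simp only [h, dif_neg, not_false_eq_true]
      have h2 : ∀ k, (x (φ k)).1 i = false := by
        intro k
        by_contra hcon
        exact h (Set.mem_iUnion.2 ⟨φ k, by simpa using hcon⟩)
      simp only [h2]
      exact tendsto_const_nhds

/-- There are a compact Hausdorff selectively highly divergent space and a dense subset which is not
selectively highly divergent in the subspace topology. -/
theorem result : ∃ (X : Type) (_ : TopologicalSpace X) (D : Set X),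
    CompactSpace X ∧ T2Space X ∧ SHD X ∧ Dense D ∧ ¬ SHD D := by
  refine ⟨I → Bool, inferInstance, D, inferInstance, inferInstance, shd_cube, dense_D, fun h => ?_⟩
  obtain ⟨x, -, hx⟩ := h (fun _ => Set.univ) (fun _ => isOpen_univ) fun _ =>
    ⟨⟨fun _ => false, by simp [D]⟩, trivial⟩
  obtain ⟨φ, a, hφ, ha⟩ := exists_subseq x
  exact hx φ a hφ ha

end Pool.Agent.Results.MP_f0fa00_gt.SHDNotDenseHereditary
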